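import Mathlib
import Pool.Agent.N912.HL.H8

/-!
Arbitrary completely additive functions with values in a finite abelian group, at the values and at the
factors of `n^2 + 1`. In particular: all sign patterns of arbitrary completely multiplicative functions
`f₁, …, f_r` with values `±1` occur at squarefree values of `n^2 + 1`, unless a product of some of them
is close to a Dirichlet character.

The proof combines a Halász type theorem for multiplicative functions on the Gaussian integers, in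
residue classes (`Pool/Agent/N912/HL`), with the two-factor method (`Pool/Agent/N912/PM` and the
starting library `Pool.Agent.W78.EG`, `Pool.Agent.W251.EG`).
-/

set_option autoImplicit false

namespace Pool.Agent.Results.MP_7169d5_nt.SignPatterns

open Finset Filter

/-- `H` is completely additive -/
def Additive {A : Type} [AddCommGroup A] (H : ℕ → A) : Prop :=
  ∀ x y : ℕ, x ≠ 0 → y ≠ 0 → H (x * y) = H x + H y

open scoped Classical in
/-- `f` is far from all Dirichlet characters on the primes `p ≡ 1 mod 4`: for each Dirichlet character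
`χ`, the sum of `1/p` over the primes `p ≡ 1 mod 4` with `f(p) ≠ χ(p)` is infinite -/
def Far (f : ℕ → ℂ) : Prop := ∀ M : ℕ, 1 ≤ M → ∀ χ : DirichletCharacter ℂ M,
  ¬ Summable (fun p : ℕ => if p.Prime ∧ p % 4 = 1 ∧ f p ≠ χ (p : ZMod M) then 1 / (p : ℝ) else 0)

open scoped Classical in
/-- the pairs `(d, d')` of positive integers with `s₁ X < d ≤ s₂ X`, `s₃ X < d' ≤ s₄ X`, `d ≡ r mod q`
and `d d' = n^2 + 1` for some `n ≥ 1` with `n ≡ u mod q` -/
noncomputable def Pairs (q u r : ℕ) (s₁ s₂ s₃ s₄ : ℝ) (X : ℕ) : Finset (ℕ × ℕ) :=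
  (Icc 1 ⌊s₂ * X⌋₊ ×ˢ Icc 1 ⌊s₄ * X⌋₊).filter (fun p => s₁ * X < p.1 ∧ s₃ * X < p.2 ∧
    p.1 ≡ r [MOD q] ∧ ∃ n : ℕ, 1 ≤ n ∧ p.1 * p.2 = n ^ 2 + 1 ∧ n ≡ u [MOD q])

open scoped Classical in
/-- the difference between the number of the pairs `(d, d')` in `P` with `H₁(d) + H₂(d') = g` and the
number expected if `H₁(d) + H₂(d')` is equidistributed in `A` -/
noncomputable def Dev {A : Type} [AddCommGroup A] (H₁ H₂ : ℕ → A) (g : A) (P : Finset (ℕ × ℕ)) : ℝ :=
  |((P.filter (fun p => H₁ p.1 + H₂ p.2 = g)).card : ℝ) - 1 / (Nat.card A : ℝ) * (P.card : ℝ)|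

open scoped Classical in
/-- the number of the integers `1 ≤ n ≤ X`, `n ≡ u mod q`, for which `n^2 + 1` is squarefree and has a
factorisation `n^2 + 1 = d d'` with `d, d' ≤ X` and `H₁(d) + H₂(d') = g` -/
noncomputable def count₂ {A : Type} [AddCommGroup A] (q u : ℕ) (H₁ H₂ : ℕ → A) (g : A) (X : ℕ) : ℕ :=
  ((Icc 1 X).filter (fun n : ℕ => n ≡ u [MOD q] ∧ Squarefree (n ^ 2 + 1) ∧
    ∃ d e : ℕ, d ≤ X ∧ e ≤ X ∧ d * e = n ^ 2 + 1 ∧ H₁ d + H₂ e = g)).card

open scoped Classical in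
/-- the number of the integers `1 ≤ n ≤ X`, `n ≡ u mod q`, for which `n^2 + 1` is squarefree and
`H(n^2 + 1) = g` -/
noncomputable def count {A : Type} [AddCommGroup A] (q u : ℕ) (H : ℕ → A) (g : A) (X : ℕ) : ℕ :=
  ((Icc 1 X).filter (fun n : ℕ => n ≡ u [MOD q] ∧ Squarefree (n ^ 2 + 1) ∧ H (n ^ 2 + 1) = g)).card

open scoped Classical in
/-- the set of the positive integers `X` with `P X` has logarithmic density `0` -/
def LogNull (P : ℕ → Prop) : Prop :=
  Tendsto (fun Z : ℕ => (∑ X ∈ (Icc 1 Z).filter P, 1 / (X : ℝ)) / Real.log Z) atTop (nhds 0)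

/-- `C X` is at least `X / (log X)^(log 2 + ε)` for almost all `X`, for each `ε > 0`, and at least
`X^(1 - δ)` for all large `X`, for each `δ > 0` -/
def Many (C : ℕ → ℕ) : Prop :=
  (∀ ε : ℝ, 0 < ε → LogNull (fun X => (C X : ℝ) < X / Real.log X ^ (Real.log 2 + ε))) ∧
  ∀ δ : ℝ, 0 < δ → ∃ X₀ : ℕ, ∀ X : ℕ, X₀ ≤ X → (X : ℝ) ^ (1 - δ) ≤ C X

section

variable {A : Type} [AddCommGroup A]

theorem pairs_eq (q u r : ℕ) (s₁ s₂ s₃ s₄ : ℝ) (X : ℕ) :
    Pairs q u r s₁ s₂ s₃ s₄ X = Pool.Agent.N912.PM.SG 0 1 q u r s₁ s₂ s₃ s₄ X := by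
  classical
  unfold Pairs Pool.Agent.N912.PM.SG
  simp only [add_zero, zero_mul]

theorem dev_eq (H₁ H₂ : ℕ → A) (g : A) (P : Finset (ℕ × ℕ))
    [DecidablePred (fun p : ℕ × ℕ => H₁ p.1 + H₂ p.2 = g)] :
    Dev H₁ H₂ g P = |((P.filter (fun p => H₁ p.1 + H₂ p.2 = g)).card : ℝ) -
      1 / (Nat.card (⊤ : AddSubgroup A) : ℝ) * (P.card : ℝ)| := by
  classical
  unfold Dev
  rw [AddSubgroup.card_top]
  congr!

theorem count₂_eq (q u : ℕ) (H₁ H₂ : ℕ → A) (g : A) (X : ℕ) :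
    Pool.Agent.V11296.CW.cw 0 1 q u H₁ H₂ g X = count₂ q u H₁ H₂ g X := by
  classical
  unfold count₂ Pool.Agent.V11296.CW.cw
  congr 1
  ext n
  rw [mem_filter, mem_filter, mem_Icc, mem_range, zero_mul, add_zero, add_zero]
  constructor
  · rintro ⟨h2, h1, h3, h4, h5⟩
    exact ⟨⟨h1, by omega⟩, h3, h4, h5⟩
  · rintro ⟨⟨h1, h2⟩, h3, h4, h5⟩
    exact ⟨by omega, h1, h3, h4, h5⟩

theorem count_ge {H : ℕ → A} (hH : Additive H) (q u : ℕ) (g : A) (X : ℕ) :
    count₂ q u H H g X ≤ count q u H g X := by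
  classical
  unfold count₂ count
  refine card_le_card fun n hn => ?_
  rw [mem_filter] at hn ⊢
  obtain ⟨h1, h2, h3, d, e, _, _, h4, h5⟩ := hn
  refine ⟨h1, h2, h3, ?_⟩
  rw [← h4, hH, h5]
  · rintro rfl
    rw [zero_mul] at h4
    omega
  · rintro rfl
    rw [mul_zero] at h4
    omega

theorem logNull_mono {P Q : ℕ → Prop} (h : ∀ X, Q X → P X) (hP : LogNull P) : LogNull Q := by
  classical
  unfold LogNull at *
  refine squeeze_zero (fun Z => div_nonneg (sum_nonneg fun X _ => by positivity)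
    (Real.log_natCast_nonneg Z)) (fun Z => ?_) hP
  refine div_le_div_of_nonneg_right ?_ (Real.log_natCast_nonneg Z)
  refine sum_le_sum_of_subset_of_nonneg ?_ fun _ _ _ => by positivity
  intro X hX
  rw [mem_filter] at hX ⊢
  exact ⟨hX.1, h X hX.2⟩

theorem many_mono {C D : ℕ → ℕ} (h : ∀ X, C X ≤ D X) (hC : Many C) : Many D := by
  refine ⟨fun ε hε => logNull_mono (fun X hX => lt_of_le_of_lt ?_ hX) (hC.1 ε hε),
    fun δ hδ => ?_⟩
  · exact_mod_cast h X
  · obtain ⟨X₀, hX₀⟩ := hC.2 δ hδ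
    exact ⟨X₀, fun X hX => (hX₀ X hX).trans (by exact_mod_cast h X)⟩

end

/-- Let `A` be a finite abelian group and `H₁, H₂ : ℕ → A` completely additive, with
`H₁(p) + H₂(p) = τ` for all primes `p ≡ 1 mod m` (no condition on the other primes; if `H₁ = H₂` and
`2 A = 0`, then there is no condition at all). For every nontrivial character `ψ` of `A`, let one of
`ψ ∘ H₁`, `ψ ∘ H₂` be far from the Dirichlet characters on the primes `p ≡ 1 mod 4`. Let `g` be an
element of `A`.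

1. In all windows and residue classes, for almost all `X`, the proportion of the pairs `(d, d')` in
   `Pairs` with `H₁(d) + H₂(d') = g` is `1 / |A|`, up to `o(X)` pairs; the same holds for the pairs
   with `d d'` squarefree.
2. If `u^2 + 1` is not divisible by the square of a prime whose square divides `q`, then for many
   `n ≡ u mod q` the number `n^2 + 1` is squarefree and has a factorisation `d d'`, `d, d' ≤ X`, with
   `H₁(d) + H₂(d') = g`.
3. If moreover `H₁ = H₂ = H`, then for many `n ≡ u mod q` the number `n^2 + 1` is squarefree with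
   `H(n^2 + 1) = g`. -/
theorem result {A : Type} [AddCommGroup A] [Finite A] (m : ℕ) (hm : 1 ≤ m) (τ : A) (H₁ H₂ : ℕ → A)
    (h₁ : Additive H₁) (h₂ : Additive H₂)
    (hτ : ∀ p : ℕ, p.Prime → p ≡ 1 [MOD m] → H₁ p + H₂ p = τ)
    (hfar : ∀ ψ : AddChar A ℂ, ψ ≠ 1 → Far (fun n => ψ (H₁ n)) ∨ Far (fun n => ψ (H₂ n)))
    (q u : ℕ) (hq : 1 ≤ q) (g : A) :
    (∀ (r : ℕ) (s₁ s₂ s₃ s₄ : ℝ), 0 ≤ s₁ → s₁ < s₂ → 0 ≤ s₃ → s₃ < s₄ → ∀ ε : ℝ, 0 < ε →
      LogNull (fun X : ℕ => ε * X < Dev H₁ H₂ g (Pairs q u r s₁ s₂ s₃ s₄ X)) ∧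
      LogNull (fun X : ℕ => ε * X < Dev H₁ H₂ g ((Pairs q u r s₁ s₂ s₃ s₄ X).filter
        (fun p => Squarefree (p.1 * p.2))))) ∧
    ((∀ l : ℕ, l.Prime → l ^ 2 ∣ q → ¬ l ^ 2 ∣ u ^ 2 + 1) →
      Many (count₂ q u H₁ H₂ g) ∧ (H₁ = H₂ → Many (count q u H₁ g))) := by
  classical
  obtain ⟨f, χ, hF'⟩ := Pool.Agent.W251.EG.fd4
  have hF : Pool.Agent.W78.EG.Fd (((0 : ℕ) : ℤ)) (((1 : ℕ) : ℤ)) f χ := by exact_mod_cast hF'
  have hS := Pool.Agent.W251.EG.sps9 0 1 (by simp)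
  have hfar' : ∀ ψ : AddChar A ℂ, ψ ≠ 1 → Pool.Agent.N912.HL.FarD (fun n => ψ (H₁ n)) ∨
      Pool.Agent.N912.HL.FarD (fun n => ψ (H₂ n)) := hfar
  have hgg := Pool.Agent.N912.HL.gg_far hF hm h₁ h₂ hτ hfar'
  refine ⟨?_, ?_⟩
  · intro r s₁ s₂ s₃ s₄ g1 g2 g3 g4 ε hε
    have hadp := Pool.Agent.N912.HL.adp_top q u r H₁ H₂ g
    constructor
    · have h := Pool.Agent.N912.PM.outG hF hgg g q u r hq hadp s₁ s₂ s₃ s₄ g1 g2 g3 g4 ε hε
      refine h.congr fun N => ?_
      congr 1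
      refine sum_congr ?_ fun _ _ => rfl
      ext X
      rw [mem_filter, mem_filter, dev_eq, pairs_eq]
    · have h := Pool.Agent.N912.PM.outGsq hF hgg g q u r hq hadp s₁ s₂ s₃ s₄ g1 g2 g3 g4 ε hε
      refine h.congr fun N => ?_
      congr 1
      refine sum_congr ?_ fun _ _ => rfl
      ext X
      rw [mem_filter, mem_filter, dev_eq, pairs_eq]
  · intro hu
    have hqa : ∀ l : ℕ, l.Prime → l ^ 2 ∣ q → ¬ l ^ 2 ∣ u ^ 2 + 0 * u + 1 := by
      intro l hl hlq
      rw [zero_mul, add_zero]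
      exact hu l hl hlq
    have hadq := Pool.Agent.N912.HL.adq_top q u H₁ H₂ g
    have hmany : Many (count₂ q u H₁ H₂ g) := by
      refine ⟨fun ε hε => ?_, fun δ hδ => ?_⟩
      · have h := Pool.Agent.N912.PM.outCw3 hF hS hgg g q u hq hadq hqa ε hε
        refine h.congr fun N => ?_
        congr 1
        refine sum_congr ?_ fun _ _ => rfl
        ext X
        rw [mem_filter, mem_filter, count₂_eq]
      · obtain ⟨N₀, h⟩ := Pool.Agent.N912.PM.outCwAll3 hF hS hgg g q u hq hadq hqa δ hδ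
        exact ⟨N₀, fun X hX => by rw [← count₂_eq]; exact h X hX⟩
    refine ⟨hmany, ?_⟩
    rintro rfl
    exact many_mono (count_ge h₁ q u g) hmany

end Pool.Agent.Results.MP_7169d5_nt.SignPatterns
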